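import Pool.Agent.Lib.MP_eee7a8_ag.TB.IfaceA

/-!
# TAGBR, group A: module RADIUS
-/

set_option autoImplicit false

open Matrix

namespace Pool.Agent.Lib.MP_eee7a8_ag.TB.H48

open Pool.Agent.Lib.MP_eee7a8_ag.TB

/-- the product of the three determinants of a triple is invariant -/
theorem radius_orient (g : SLZ) (p q r : Cusp) :
    dt (g • p) (g • q) * dt (g • q) (g • r) * dt (g • r) (g • p) =
      dt p q * dt q r * dt r p := by
  rw [dt_smul, dt_smul, dt_smul]
  have h1 := eps_sq g p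
  have h2 := eps_sq g q
  have h3 := eps_sq g r
  have e : eps g p * eps g q * dt p q * (eps g q * eps g r * dt q r) *
      (eps g r * eps g p * dt r p) = (eps g p * eps g p) * (eps g q * eps g q) *
      (eps g r * eps g r) * (dt p q * dt q r * dt r p) := by ring
  rw [e, h1, h2, h3]
  ring

theorem radius_one {a f c d q : Cusp} (h : Cross a f c d) (h1 : Cross a f c q) (hq : q ≠ d) :
    Cross c q a d ∨ Cross c q f d := by
  simp only [cross_iff] at *
  grind (splits := 60)

theorem radius_two {a f c d p q : Cusp} (h : Cross a f c d) (h1 : Cross a f p q)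
    (hpc : p ≠ c) (hpd : p ≠ d) (hqc : q ≠ c) (hqd : q ≠ d) :
    (Cross p q a c ∨ Cross p q f c) ∧ (Cross p q a d ∨ Cross p q f d) := by
  simp only [cross_iff] at *
  grind (splits := 80)

variable {G : Subgroup SLZ}

theorem radius_core (hS : NoSwapStatement) (hF : FixTwoStatement) (hG : IsSurface G) {ι : Type}
    {T : Fam ι} (hT : T.IsTri G) {a f c d : Cusp} (hcd : T.E G c d) (hac : T.E G a c)
    (had : T.E G a d) (hfc : T.E G f c) (hfd : T.E G f d) (hX : Cross a f c d) {g : SLZ}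
    (hg : g ∈ G) (hc : Cross a f (g • a) (g • f)) (hga : g • a = c) :
    ∃ g ∈ G, (g • c = c ∧ g • d = a ∧ g • f = d) ∨ (g • d = d ∧ g • c = a ∧ g • f = c) := by
  have hN := hT.toNonCross
  have hgX : Cross (g • a) (g • f) (g • c) (g • d) := (cross_smul g a f c d).2 hX
  have hdiag : ∀ p q, T.E G p q → Cross (g • a) (g • f) p q →
      (p = g • c ∧ q = g • d) ∨ (p = g • d ∧ q = g • c) := by
    intro p q hpq hcr
    exact hN.diag (hac.smul hg) (had.smul hg) (hfc.smul hg) (hfd.smul hg) hgX hpq hcr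
  have hfd' : g • f ≠ d := by
    intro e
    rw [hga, e] at hgX
    exact hN.nocross _ _ _ _ hcd (hcd.smul hg) hgX
  rw [hga] at hc
  have hne := hX.ne
  rcases radius_one hX hc hfd' with h1 | h1
  · rcases hdiag a d had (by rw [hga]; exact h1) with ⟨e1, e2⟩ | ⟨e1, e2⟩
    · exact absurd (hS G hG g hg a c hga e1.symm) hne.2.1
    · exact absurd ⟨hga, e2.symm, e1.symm⟩ (hF.2 G hG g hg a c d hne.2.1)
  · rcases hdiag f d hfd (by rw [hga]; exact h1) with ⟨e1, e2⟩ | ⟨e1, e2⟩
    · refine ⟨g⁻¹, G.inv_mem hg, Or.inr ⟨?_, ?_, ?_⟩⟩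
      · rw [inv_smul_eq_iff]; exact e2
      · rw [inv_smul_eq_iff]; exact hga.symm
      · rw [inv_smul_eq_iff]; exact e1
    · exfalso
      have ho := radius_orient g a c d
      rw [hga, ← e1, ← e2] at ho
      have h2 := cross_swap.1 hX
      unfold Cross at h2
      have hcd0 : dt c d ≠ 0 := dt_ne_zero hne.2.2.2.2.2
      have h3 : dt d f * dt f c = dt a c * dt d a := by
        apply mul_left_cancel₀ hcd0
        linear_combination ho
      rw [dt_symm d f, dt_symm d a] at h3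
      rw [dt_symm c a, dt_symm d a, dt_symm c f, dt_symm d f] at h2
      have h4 : dt a c * dt a d = dt f c * dt f d := by linear_combination h3
      have h5 : -dt a c * -dt a d * (-dt f c * -dt f d) = (dt a c * dt a d) * (dt a c * dt a d) := by
        linear_combination (-(dt a c * dt a d)) * h4
      rw [h5] at h2
      exact absurd h2 (not_lt.2 (mul_self_nonneg _))

/-- RADIUS. -/
theorem radius (hS : NoSwapStatement) (hF : FixTwoStatement) : RadiusStatement := by
  intro G hG ι _ T hT a f c d hcd hac had hfc hfd hX hns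
  have hN := hT.toNonCross
  have hne := hX.ne
  have hex : ∃ g ∈ G, Cross a f (g • a) (g • f) := by
    by_contra hno
    push Not at hno
    exact hns ⟨hne.1, hno⟩
  obtain ⟨g, hg, hc⟩ := hex
  by_cases h1 : g • a = c
  · exact radius_core hS hF hG hT hcd hac had hfc hfd hX hg hc h1
  by_cases h2 : g • a = d
  · obtain ⟨k, hk, hk1 | hk1⟩ := radius_core hS hF hG hT hcd.symm had hac hfd hfc
      (cross_comm_right.1 hX) hg hc h2
    · exact ⟨k, hk, Or.inr hk1⟩
    · exact ⟨k, hk, Or.inl hk1⟩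
  have hfl : Cross f a (g • f) (g • a) := cross_comm_left.1 (cross_comm_right.1 hc)
  by_cases h3 : g • f = c
  · obtain ⟨k, hk, ⟨e1, e2, e3⟩ | ⟨e1, e2, e3⟩⟩ := radius_core hS hF hG hT hcd hfc hfd hac had
      (cross_comm_left.1 hX) hg hfl h3
    · refine ⟨k⁻¹, G.inv_mem hk, Or.inl ⟨?_, ?_, ?_⟩⟩
      · rw [inv_smul_eq_iff]; exact e1.symm
      · rw [inv_smul_eq_iff]; exact e3.symm
      · rw [inv_smul_eq_iff]; exact e2.symm
    · refine ⟨k⁻¹, G.inv_mem hk, Or.inr ⟨?_, ?_, ?_⟩⟩
      · rw [inv_smul_eq_iff]; exact e1.symm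
      · rw [inv_smul_eq_iff]; exact e3.symm
      · rw [inv_smul_eq_iff]; exact e2.symm
  by_cases h4 : g • f = d
  · obtain ⟨k, hk, ⟨e1, e2, e3⟩ | ⟨e1, e2, e3⟩⟩ := radius_core hS hF hG hT hcd.symm hfd hfc had hac
      (cross_comm_left.1 (cross_comm_right.1 hX)) hg hfl h4
    · refine ⟨k⁻¹, G.inv_mem hk, Or.inr ⟨?_, ?_, ?_⟩⟩
      · rw [inv_smul_eq_iff]; exact e1.symm
      · rw [inv_smul_eq_iff]; exact e3.symm
      · rw [inv_smul_eq_iff]; exact e2.symm
    · refine ⟨k⁻¹, G.inv_mem hk, Or.inl ⟨?_, ?_, ?_⟩⟩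
      · rw [inv_smul_eq_iff]; exact e1.symm
      · rw [inv_smul_eq_iff]; exact e3.symm
      · rw [inv_smul_eq_iff]; exact e2.symm
  exfalso
  have hgX : Cross (g • a) (g • f) (g • c) (g • d) := (cross_smul g a f c d).2 hX
  have hdiag : ∀ p q, T.E G p q → Cross (g • a) (g • f) p q →
      (p = g • c ∧ q = g • d) ∨ (p = g • d ∧ q = g • c) := by
    intro p q hpq hcr
    exact hN.diag (hac.smul hg) (had.smul hg) (hfc.smul hg) (hfd.smul hg) hgX hpq hcr
  obtain ⟨h5, h6⟩ := radius_two hX hc h1 h2 h3 h4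
  obtain ⟨n1, n2, n3, n4, n5, n6⟩ := hne
  rcases h5 with h5 | h5 <;> rcases h6 with h6 | h6
  · have k1 := hdiag a c hac h5
    have k2 := hdiag a d had h6
    grind
  · have k1 := hdiag a c hac h5
    have k2 := hdiag f d hfd h6
    grind
  · have k1 := hdiag f c hfc h5
    have k2 := hdiag a d had h6
    grind
  · have k1 := hdiag f c hfc h5
    have k2 := hdiag f d hfd h6
    grind

end Pool.Agent.Lib.MP_eee7a8_ag.TB.H48
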